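import Mathlib

set_option autoImplicit false

open MeasureTheory Set Real
open scoped InnerProductSpace NNReal

namespace Pool.Agent.Results.MP_be8317_an.Proof

section
variable {A : Type} [CStarAlgebra A] [PartialOrder A] [StarOrderedRing A]

noncomputable def Phi (m : ℕ) (X Y : A) : A :=
  Y ^ (1 / 2 : ℝ) * (Y ^ (-(1 / 2) : ℝ) * X * Y ^ (-(1 / 2) : ℝ)) ^ (1 / m : ℝ) * Y ^ (1 / 2 : ℝ)

noncomputable def GM : List A → A
  | [] => 1
  | [X] => X
  | X :: Y :: l => Phi (l.length + 2) X (GM (Y :: l))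

noncomputable def AM (l : List A) : A := (1 / l.length : ℝ) • l.sum

def Alzer (A : Type) [CStarAlgebra A] [PartialOrder A] [StarOrderedRing A] : Prop :=
  ∀ l : List A, 2 ≤ l.length → (∀ X ∈ l, IsStrictlyPositive X ∧ X ≤ (1 / 2 : ℝ) • (1 : A)) →
    0 ≤ (AM l - GM l) - (AM (l.map fun X => 1 - X) - GM (l.map fun X => 1 - X))

theorem Phi_sp (m : ℕ) {X Y : A} (hX : IsStrictlyPositive X) (hY : IsStrictlyPositive Y) :
    IsStrictlyPositive (Y ^ (-(1 / 2) : ℝ) * X * Y ^ (-(1 / 2) : ℝ)) ∧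
      IsStrictlyPositive (Phi m X Y) := by
  have c : ∀ {a b : A}, IsStrictlyPositive a → IsStrictlyPositive b →
      IsStrictlyPositive (b * a * b) := fun ha hb =>
    ((hb.isUnit.mul ha.isUnit).mul hb.isUnit).isStrictlyPositive
      (conjugate_nonneg_of_nonneg ha.nonneg hb.nonneg)
  have h1 := c hX (hY.rpow _ (-(1 / 2)))
  exact ⟨h1, c (h1.rpow _ _) (hY.rpow _ _)⟩

theorem GM_sp : ∀ l : List A, (∀ X ∈ l, IsStrictlyPositive X) → IsStrictlyPositive (GM l)
  | [], _ => isStrictlyPositive_one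
  | [X], h => h X (by simp)
  | X :: Y :: l, h => (Phi_sp _ (h X (by simp))
      (GM_sp (Y :: l) fun Z hZ => h Z (List.mem_cons_of_mem _ hZ))).2

end

variable {H : Type} [NormedAddCommGroup H] [InnerProductSpace ℂ H] [CompleteSpace H]

noncomputable def b (T : H →L[ℂ] H) (u v : H) : ℝ := (⟪u, T v⟫_ℂ).re

theorem b_symm {T : H →L[ℂ] H} (h : 0 ≤ T) (u v : H) : b T u v = b T v u := by
  have e : ⟪T u, v⟫_ℂ = ⟪u, T v⟫_ℂ := (IsSelfAdjoint.of_nonneg h).isSymmetric u v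
  rw [b, b, ← e, ← inner_conj_symm, Complex.conj_re]

theorem b_nonneg {T : H →L[ℂ] H} (h : 0 ≤ T) (u : H) : 0 ≤ b T u u :=
  ((ContinuousLinearMap.nonneg_iff_isPositive T).1 h).re_inner_nonneg_right u

omit [CompleteSpace H] in
theorem b_exp (T : H →L[ℂ] H) (u v : H) (s : ℝ) :
    b T (u + s • v) (u + s • v) = b T u u + s * (b T u v + b T v u) + s ^ 2 * b T v v := by
  simp [b, inner_add_left, inner_add_right, ← Complex.coe_smul, inner_smul_left,
    inner_smul_right]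
  ring

theorem b_conj {S : H →L[ℂ] H} (h : 0 ≤ S) (T : H →L[ℂ] H) (u v : H) :
    b (S * T * S) u v = b T (S u) (S v) := by
  rw [b, b]
  exact congrArg _ ((IsSelfAdjoint.of_nonneg h).isSymmetric u _).symm

noncomputable def D (t : ℝ) (C : H →L[ℂ] H) : H →L[ℂ] H := cfc (fun x : ℝ => x / (t + x)) C

theorem D_eq {t : ℝ} (ht : 0 < t) {C : H →L[ℂ] H} (hC : 0 ≤ C) (w : H) :
    C (w - D t C w) = t • D t C w := by
  have hc : ContinuousOn (fun x : ℝ => x / (t + x)) (spectrum ℝ C) :=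
    continuousOn_id.div (by fun_prop) fun x hx => by
      have := spectrum_nonneg_of_nonneg hC hx; positivity
  have : C - C * D t C = t • D t C := by
    rw [D, ← cfc_smul t _ C hc]
    nth_rw 1 [← cfc_id' ℝ C]
    nth_rw 2 [← cfc_id' ℝ C]
    rw [← cfc_mul _ _ C (by fun_prop) hc, ← cfc_sub (fun x : ℝ => x)
      (fun x : ℝ => x * (x / (t + x))) C (by fun_prop) (continuousOn_id.mul hc)]
    refine cfc_congr fun x hx => ?_
    have := spectrum_nonneg_of_nonneg hC hx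
    simp only [smul_eq_mul]
    field_simp
    ring
  have := congrArg (fun T : H →L[ℂ] H => T w) this
  simpa using this

theorem var {t : ℝ} (ht : 0 < t) {C : H →L[ℂ] H} (hC : 0 ≤ C) (w e : H) :
    b 1 (D t C w + e) (D t C w + e) + b C (w - D t C w - e) (w - D t C w - e) / t =
      b (D t C) w w + b 1 e e + b C e e / t := by
  have h1 := b_exp 1 (D t C w) e 1
  have h2 := b_exp C (w - D t C w) e (-1)
  rw [one_smul] at h1
  rw [neg_smul, one_smul, ← sub_eq_add_neg, b_symm hC _ e] at h2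
  have h3 : ∀ y, b C y (w - D t C w) = t * b 1 y (D t C w) := fun y => by
    rw [b, b, D_eq ht hC, ← Complex.coe_smul, inner_smul_right]; simp
  have h4 : b 1 (w - D t C w) (D t C w) = b (D t C) w w - b 1 (D t C w) (D t C w) := by
    simp [b, inner_sub_left]
  rw [h1, h2, h3, h3, h4, b_symm zero_le_one (D t C w) e]
  field_simp
  ring

theorem harm0 {t : ℝ} (ht : 0 < t) {X S S' : H →L[ℂ] H} (hS : 0 ≤ S) (e1 : S * S' = 1)
    (e2 : S' * S = 1) (hC : 0 ≤ S' * X * S') (ξ : H) :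
    (∀ u, b (D t (S' * X * S')) (S ξ) (S ξ) ≤ b (S * 1 * S) u u + b X (ξ - u) (ξ - u) / t) ∧
      ∃ u, b (D t (S' * X * S')) (S ξ) (S ξ) = b (S * 1 * S) u u + b X (ξ - u) (ξ - u) / t := by
  have e4 : S * (S' * X * S') * S = X := by
    rw [← mul_assoc, ← mul_assoc, e1, one_mul, mul_assoc, e2, mul_one]
  generalize S' * X * S' = C at *
  have key : ∀ u, b (S * 1 * S) u u + b X (ξ - u) (ξ - u) / t = b (D t C) (S ξ) (S ξ) +
      b 1 (S u - D t C (S ξ)) (S u - D t C (S ξ)) +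
      b C (S u - D t C (S ξ)) (S u - D t C (S ξ)) / t := by
    intro u
    rw [← var ht hC, add_sub_cancel, sub_sub, add_sub_cancel, ← map_sub, b_conj hS, ← e4,
      b_conj hS]
  refine ⟨fun u => ?_, S' (D t C (S ξ)), ?_⟩
  · rw [key, add_assoc]
    exact le_add_of_nonneg_right (add_nonneg (b_nonneg zero_le_one _)
      (div_nonneg (b_nonneg hC _) ht.le))
  · have e : S (S' (D t C (S ξ))) = D t C (S ξ) := congrArg (fun T : H →L[ℂ] H => T _) e1
    rw [key, e]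
    simp [b]

noncomputable def rr (t : ℝ) (X Y : H →L[ℂ] H) (ξ : H) : ℝ :=
  b (D t (Y ^ (-(1 / 2) : ℝ) * X * Y ^ (-(1 / 2) : ℝ))) ((Y ^ (1 / 2 : ℝ) : H →L[ℂ] H) ξ)
    ((Y ^ (1 / 2 : ℝ) : H →L[ℂ] H) ξ)

theorem harm {t : ℝ} (ht : 0 < t) {X Y : H →L[ℂ] H} (hX : IsStrictlyPositive X)
    (hY : IsStrictlyPositive Y) (ξ : H) :
    (∀ u, rr t X Y ξ ≤ b Y u u + b X (ξ - u) (ξ - u) / t) ∧
      ∃ u, rr t X Y ξ = b Y u u + b X (ξ - u) (ξ - u) / t := by
  have e3 : Y ^ (1 / 2 : ℝ) * 1 * Y ^ (1 / 2 : ℝ) = Y := by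
    rw [mul_one, ← CFC.rpow_add hY.isUnit, add_halves, CFC.rpow_one Y hY.nonneg]
  have := harm0 ht (X := X) (CFC.rpow_nonneg (a := Y) (y := 1 / 2)) (CFC.rpow_mul_rpow_neg _ hY)
    (CFC.rpow_neg_mul_rpow _ hY) (Phi_sp 0 hX hY).1.nonneg ξ
  rw [e3] at this
  exact this

def PP (Z Z' : H →L[ℂ] H) (a : H → ℝ) : Prop :=
  ∀ ξ ζ, b Z (ξ - ζ) (ξ - ζ) - b Z' (ξ + ζ) (ξ + ζ) ≤ a ξ - 2 * b 1 ξ ζ

theorem rep {p : ℝ} (hp : p ∈ Ioo (0 : ℝ) 1) [Nontrivial H] : ∃ μ : Measure ℝ,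
    (∀ C : H →L[ℂ] H, 0 ≤ C → ∀ w, IntegrableOn (fun t => t ^ p / t * b (D t C) w w) (Ioi 0) μ ∧
      b (C ^ p) w w = ∫ t in Ioi 0, t ^ p / t * b (D t C) w w ∂μ) ∧
    IntegrableOn (fun t : ℝ => t ^ p / t * (1 / (t + 1))) (Ioi 0) μ ∧
    IntegrableOn (fun t : ℝ => t ^ p / t * (t / (t + 1) ^ 2)) (Ioi 0) μ ∧
    ∫ t in Ioi 0, t ^ p / t * (1 / (t + 1)) ∂μ = 1 ∧
    ∫ t in Ioi 0, t ^ p / t * (t / (t + 1) ^ 2) ∂μ = p := by
  lift p to ℝ≥0 using hp.1.le
  obtain ⟨μ, hμ⟩ := CFC.exists_measure_nnrpow_eq_integral_cfcₙ_rpowIntegrand₀₁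
    (A := H →L[ℂ] H) (p := p) ⟨by exact_mod_cast hp.1, by exact_mod_cast hp.2⟩
  have h1 : ∀ C : H →L[ℂ] H, 0 ≤ C → ∀ w,
      IntegrableOn (fun t => t ^ (p : ℝ) / t * b (D t C) w w) (Ioi 0) μ ∧
      b (C ^ (p : ℝ)) w w = ∫ t in Ioi 0, t ^ (p : ℝ) / t * b (D t C) w w ∂μ := by
    intro C hC w
    let L : (H →L[ℂ] H) →L[ℝ] ℝ := Complex.reCLM.comp
      (((innerSL ℂ w).comp (ContinuousLinearMap.apply ℂ H w)).restrictScalars ℝ)
    obtain ⟨i1, i2⟩ := hμ C hC
    have e : EqOn (fun t => L (cfcₙ (rpowIntegrand₀₁ p t) C))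
        (fun t => t ^ (p : ℝ) / t * b (D t C) w w) (Ioi 0) := fun t (ht : 0 < t) => by
      have hc : ContinuousOn (fun x : ℝ => x / (t + x)) (spectrum ℝ C) :=
        continuousOn_id.div (by fun_prop) fun x hx => by
          have := spectrum_nonneg_of_nonneg hC hx; positivity
      have : cfcₙ (rpowIntegrand₀₁ p t) C = (t ^ (p : ℝ) / t) • D t C := by
        rw [cfcₙ_eq_cfc ((continuousOn_rpowIntegrand₀₁_Ici hp ht).mono fun x hx =>
          quasispectrum_nonneg_of_nonneg C hC x hx) rpowIntegrand₀₁_zero_right, D,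
          ← cfc_smul _ _ C hc]
        refine cfc_congr fun x hx => ?_
        have := spectrum_nonneg_of_nonneg hC hx
        simp only [rpowIntegrand₀₁, smul_eq_mul]
        field_simp
        ring
      simp only [this, map_smul, smul_eq_mul]; rfl
    refine ⟨IntegrableOn.congr_fun (L.integrable_comp i1) e measurableSet_Ioi, ?_⟩
    rw [← setIntegral_congr_fun measurableSet_Ioi e, L.integral_comp_comm i1, ← i2,
      CFC.nnrpow_eq_rpow (by exact_mod_cast hp.1)]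
    rfl
  obtain ⟨w, hw⟩ := exists_norm_eq H zero_le_one
  have h2 : ∀ x : ℝ, 0 < x → IntegrableOn (fun t => t ^ (p : ℝ) / t * (x / (t + x))) (Ioi 0) μ ∧
      x ^ (p : ℝ) = ∫ t in Ioi 0, t ^ (p : ℝ) / t * (x / (t + x)) ∂μ := by
    intro x hx
    have e : ∀ y : ℝ, b (algebraMap ℝ (H →L[ℂ] H) y) w w = y := fun y => by
      simp [b, Algebra.algebraMap_eq_smul_one, ← Complex.coe_smul, inner_smul_right, hw]
    have := h1 (algebraMap ℝ _ x) (algebraMap_nonneg _ hx.le) w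
    rw [CFC.rpow_eq_cfc_real (algebraMap_nonneg _ hx.le)] at this
    simpa only [D, cfc_algebraMap, e] using this
  have i0 := (h2 1 one_pos).1
  have i1 : IntegrableOn (fun t : ℝ => t ^ (p : ℝ) / t * (t / (t + 1) ^ 2)) (Ioi 0) μ := by
    refine Integrable.mono' i0 (by fun_prop) ((ae_restrict_mem measurableSet_Ioi).mono
      fun t (ht : 0 < t) => ?_)
    rw [Real.norm_of_nonneg (by positivity)]
    refine mul_le_mul_of_nonneg_left ?_ (by positivity)
    rw [div_le_div_iff₀ (by positivity) (by positivity)]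
    nlinarith
  have j0 := (h2 1 one_pos).2
  rw [one_rpow] at j0
  refine ⟨μ, h1, i0, i1, j0.symm, ?_⟩
  set γ := ∫ t in Ioi 0, t ^ (p : ℝ) / t * (t / (t + 1) ^ 2) ∂μ with hγ
  have hm : IsLocalMin (fun x : ℝ => x * γ - x ^ (p : ℝ)) 1 := by
    filter_upwards [lt_mem_nhds one_pos] with x hx
    have : x ^ (p : ℝ) ≤ 1 + (x - 1) * γ := by
      nth_rw 1 [j0]
      rw [(h2 x hx).2, hγ, ← integral_const_mul, ← integral_add i0 (i1.const_mul _)]
      refine setIntegral_mono_on (h2 x hx).1 (i0.add (i1.const_mul _)) measurableSet_Ioi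
        fun t (ht : 0 < t) => ?_
      rw [mul_left_comm, ← mul_add]
      refine mul_le_mul_of_nonneg_left ?_ (by positivity)
      have : 1 / (t + 1) + (x - 1) * (t / (t + 1) ^ 2) - x / (t + x) =
          t * (x - 1) ^ 2 / ((t + 1) ^ 2 * (t + x)) := by field_simp; ring
      have h0 : 0 ≤ t * (x - 1) ^ 2 / ((t + 1) ^ 2 * (t + x)) := by positivity
      linarith
    simp only [one_rpow]
    linarith
  have := hm.hasDerivAt_eq_zero ((hasDerivAt_mul_const γ).sub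
    (Real.hasDerivAt_rpow_const (Or.inl one_ne_zero)))
  simpa [sub_eq_zero] using this

theorem step [Nontrivial H] {m : ℕ} (hm : 2 ≤ m) {X X' Z Z' : H →L[ℂ] H} {a c : H → ℝ}
    (hX : IsStrictlyPositive X) (hX' : IsStrictlyPositive X') (hZ : IsStrictlyPositive Z)
    (hZ' : IsStrictlyPositive Z') (h1 : PP Z Z' a) (h2 : PP X X' c) :
    PP (Phi m X Z) (Phi m X' Z') fun ξ => (1 - 1 / m) * a ξ + 1 / m * c ξ := by
  have m2 : (2 : ℝ) ≤ m := by exact_mod_cast hm
  obtain ⟨μ, r1, i0, i1, j0, j1⟩ := rep (H := H) (p := 1 / m)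
    ⟨by positivity, by rw [div_lt_one (by linarith)]; linarith⟩
  intro ξ ζ
  have k : ∀ {X Z : H →L[ℂ] H}, IsStrictlyPositive X → IsStrictlyPositive Z → ∀ v,
      IntegrableOn (fun t => t ^ (1 / m : ℝ) / t * rr t X Z v) (Ioi 0) μ ∧
      b (Phi m X Z) v v = ∫ t in Ioi 0, t ^ (1 / m : ℝ) / t * rr t X Z v ∂μ := by
    intro X Z hX hZ v
    have := r1 _ (Phi_sp 0 hX hZ).1.nonneg ((Z ^ (1 / 2 : ℝ) : H →L[ℂ] H) v)
    exact ⟨this.1, (b_conj (CFC.rpow_nonneg (a := Z) (y := 1 / 2)) _ v v).trans this.2⟩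
  obtain ⟨k1, k2⟩ := k hX hZ (ξ - ζ)
  obtain ⟨k3, k4⟩ := k hX' hZ' (ξ + ζ)
  rw [k2, k4, ← integral_sub k1 k3]
  refine (setIntegral_mono_on (k1.sub k3) ((i0.const_mul (a ξ - 2 * b 1 ξ ζ)).add
    (i1.const_mul (c ξ - a ξ))) measurableSet_Ioi fun t (ht : 0 < t) => ?_).trans_eq ?_
  · simp only [Pi.add_apply, Pi.sub_apply]
    rw [← mul_sub, mul_left_comm (a ξ - _), mul_left_comm (c ξ - _), ← mul_add]
    refine mul_le_mul_of_nonneg_left ?_ (by positivity)
    obtain ⟨u, hu⟩ := (harm ht hX' hZ' (ξ + ζ)).2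
    have q := (harm ht hX hZ (ξ - ζ)).1 ((2 / (t + 1)) • ξ - u)
    rw [hu]
    have sc : ∀ (T : H →L[ℂ] H) (s : ℝ) (v : H), b T (s • v) (s • v) = s ^ 2 * b T v v :=
      fun T s v => by simpa [b] using b_exp T 0 v s
    have p1 := h1 ξ ((t + 1) • u - ξ)
    have p2 := h2 ξ (((t + 1) / t) • (ξ + ζ - u) - ξ)
    have t1 : t + 1 ≠ 0 := by positivity
    rw [add_sub_cancel, sc, show ξ - ((t + 1) • u - ξ) = (t + 1) • ((2 / (t + 1)) • ξ - u) by
      match_scalars <;> field_simp <;> ring, sc] at p1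
    rw [add_sub_cancel, sc, show ξ - (((t + 1) / t) • (ξ + ζ - u) - ξ) =
      ((t + 1) / t) • (ξ - ζ - ((2 / (t + 1)) • ξ - u)) by
      match_scalars <;> field_simp <;> ring, sc] at p2
    have l1 : ∀ (s : ℝ) (x y : H), b 1 ξ (s • x - y) = s * b 1 ξ x - b 1 ξ y := fun s x y => by
      simp [b, inner_sub_right, ← Complex.coe_smul, inner_smul_right]
    have l2 : b 1 ξ (ξ + ζ - u) = b 1 ξ ξ + b 1 ξ ζ - b 1 ξ u := by
      simp [b, inner_sub_right, inner_add_right]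
    rw [l1] at p1 p2
    rw [l2] at p2
    refine (sub_le_sub_right q _).trans ?_
    have p3 := add_le_add (mul_le_mul_of_nonneg_left p1 (show 0 ≤ 1 / (t + 1) ^ 2 by positivity))
      (mul_le_mul_of_nonneg_left p2 (show 0 ≤ t / (t + 1) ^ 2 by positivity))
    convert p3 using 1 <;> field_simp <;> ring
  · rw [integral_add' (i0.const_mul _) (i1.const_mul _), integral_const_mul, integral_const_mul,
      j0, j1]
    ring

theorem base {X : H →L[ℂ] H} (h : X ≤ (1 / 2 : ℝ) • (1 : H →L[ℂ] H)) :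
    PP X (1 - X) fun ξ => b X ξ ξ - b (1 - X) ξ ξ := by
  intro ξ ζ
  have h1 := b_exp X ξ ζ (-1)
  have h2 := b_exp (1 - X) ξ ζ 1
  rw [neg_smul, one_smul, ← sub_eq_add_neg] at h1
  rw [one_smul] at h2
  have h3 : ∀ u v, b (1 - X) u v = b 1 u v - b X u v := fun u v => by simp [b, inner_sub_right]
  have h4 := b_nonneg (sub_nonneg.2 h) ζ
  have h5 : b ((1 / 2 : ℝ) • (1 : H →L[ℂ] H) - X) ζ ζ = 1 / 2 * b 1 ζ ζ - b X ζ ζ := by
    simp [b, inner_sub_right, ← Complex.coe_smul, inner_smul_right]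
  rw [h1, h2, h3 ξ ζ, h3 ζ ξ, h3 ζ ζ, b_symm zero_le_one ζ ξ]
  linarith

theorem sp' {X : H →L[ℂ] H} (h : X ≤ (1 / 2 : ℝ) • (1 : H →L[ℂ] H)) :
    IsStrictlyPositive (1 - X) := by
  refine IsStrictlyPositive.of_le (a := (1 / 2 : ℝ) • (1 : H →L[ℂ] H))
    (isStrictlyPositive_one.smul (by norm_num)) ?_
  rw [le_sub_iff_add_le]
  refine (add_le_add le_rfl h).trans_eq ?_
  rw [← add_smul]; norm_num

theorem ind [Nontrivial H] : ∀ (l : List (H →L[ℂ] H)) (Y : H →L[ℂ] H),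
    (∀ X ∈ Y :: l, IsStrictlyPositive X ∧ X ≤ (1 / 2 : ℝ) • (1 : H →L[ℂ] H)) →
    PP (GM (Y :: l)) (GM ((Y :: l).map fun X => 1 - X)) fun ξ =>
      b (AM (Y :: l) - AM ((Y :: l).map fun X => 1 - X)) ξ ξ := by
  intro l
  induction l with
  | nil =>
    intro Y h
    have e : (fun ξ => b (AM [Y] - AM ([Y].map fun X => 1 - X)) ξ ξ) =
        fun ξ => b Y ξ ξ - b (1 - Y) ξ ξ := by
      ext ξ; simp [AM, b]
    rw [e]
    exact base (h Y (by simp)).2
  | cons Z l ih =>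
    intro Y h
    have h' := fun X hX => h X (List.mem_cons_of_mem _ hX)
    have := step (m := l.length + 2) (by omega) (h Y (by simp)).1 (sp' (h Y (by simp)).2)
      (GM_sp _ fun X hX => (h' X hX).1) (GM_sp _ (by
        intro X hX
        obtain ⟨W, hW, rfl⟩ := List.mem_map.1 hX
        exact sp' (h' W hW).2)) (ih Z h') (base (h Y (by simp)).2)
    have e1 : GM ((Y :: Z :: l).map fun X => 1 - X) =
        Phi (l.length + 2) (1 - Y) (GM ((Z :: l).map fun X => 1 - X)) := by simp [GM]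
    rw [e1]
    intro ξ ζ
    refine (this ξ ζ).trans_eq ?_
    · simp only [AM, b, List.map_cons, List.sum_cons, List.length_cons, List.length_map,
        ← Complex.coe_smul, sub_apply, add_apply, smul_apply, inner_sub_right, inner_add_right,
        inner_smul_right, Complex.sub_re, Complex.add_re, Complex.re_ofReal_mul]
      push_cast
      field_simp
      ring

theorem result (H : Type) [NormedAddCommGroup H] [InnerProductSpace ℂ H] [CompleteSpace H] :
    Alzer (H →L[ℂ] H) := by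
  intro l hl h
  rcases subsingleton_or_nontrivial H with _ | _
  · exact le_of_eq (Subsingleton.elim _ _)
  obtain ⟨Y, l, rfl⟩ := List.exists_cons_of_length_pos (show 0 < l.length by omega)
  have sa : ∀ l : List (H →L[ℂ] H), (∀ X ∈ l, IsStrictlyPositive X) →
      IsSelfAdjoint (AM l - GM l) := fun l hl =>
    (IsSelfAdjoint.of_nonneg (smul_nonneg (by positivity)
      (List.sum_nonneg fun X hX => (hl X hX).nonneg))).sub (GM_sp l hl).nonneg.isSelfAdjoint
  rw [ContinuousLinearMap.nonneg_iff_isPositive, ContinuousLinearMap.isPositive_def']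
  refine ⟨(sa _ fun X hX => (h X hX).1).sub (sa _ ?_), fun ξ => ?_⟩
  · intro X hX
    obtain ⟨W, hW, rfl⟩ := List.mem_map.1 hX
    exact sp' (h W hW).2
  · have := ind l Y h ξ 0
    rw [ContinuousLinearMap.reApplyInnerSelf_apply, inner_re_symm]
    simp only [b, sub_zero, add_zero, map_zero, inner_zero_right, Complex.zero_re, mul_zero,
      sub_apply, inner_sub_right, Complex.sub_re] at this
    simp only [sub_apply, inner_sub_right, map_sub, RCLike.re_to_complex]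
    linarith

end Pool.Agent.Results.MP_be8317_an.Proof
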